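import Pool.Agent.S11.FL.Step

/-!
# S11, flatness: chains of normal subgroups with free quotients
-/

open TensorProduct

namespace Pool.Agent.S11.FL

universe w u

section

variable {H : Type u} [Group H]

/-- Sections of free quotients. -/
theorem exists_section (N N' : Subgroup H) [N.Normal] (hle : N ≤ N')
    (hfree : IsFreeGroup (N' ⧸ N.subgroupOf N')) :
    ∃ (Y : Type u) (σ : FreeGroup Y →* H),
      (Function.Injective fun f => QuotientGroup.mk' N (σ f)) ∧ N ⊔ σ.range = N' := by
  let F := N' ⧸ N.subgroupOf N'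
  let e : F ≃* FreeGroup (IsFreeGroup.Generators F) := IsFreeGroup.toFreeGroup F
  have hsur : ∀ y : IsFreeGroup.Generators F, ∃ t : N',
      QuotientGroup.mk' (N.subgroupOf N') t = e.symm (FreeGroup.of y) := fun y =>
    QuotientGroup.mk'_surjective _ _
  choose t ht using hsur
  let τ : FreeGroup (IsFreeGroup.Generators F) →* N' := FreeGroup.lift t
  have hτ : (QuotientGroup.mk' (N.subgroupOf N')).comp τ = e.symm.toMonoidHom := by
    refine FreeGroup.ext_hom _ _ fun y => ?_
    rw [MonoidHom.comp_apply, FreeGroup.lift_apply_of, ht]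
    rfl
  have hτ' : ∀ f, QuotientGroup.mk' (N.subgroupOf N') (τ f) = e.symm f := fun f =>
    DFunLike.congr_fun hτ f
  refine ⟨IsFreeGroup.Generators F, N'.subtype.comp τ, ?_, ?_⟩
  · intro f f' hff
    have h1 : ((N'.subtype.comp τ) f)⁻¹ * (N'.subtype.comp τ) f' ∈ N := by
      exact QuotientGroup.eq.1 hff
    have h2 : QuotientGroup.mk' (N.subgroupOf N') (τ f) =
        QuotientGroup.mk' (N.subgroupOf N') (τ f') := by
      refine QuotientGroup.eq.2 ?_
      rw [Subgroup.mem_subgroupOf]
      exact h1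
    rw [hτ', hτ'] at h2
    exact e.symm.injective h2
  · refine le_antisymm (sup_le hle ?_) fun x hx => ?_
    · rintro _ ⟨f, rfl⟩
      exact (τ f).2
    · let x' : N' := ⟨x, hx⟩
      let f := e (QuotientGroup.mk' (N.subgroupOf N') x')
      have h1 : QuotientGroup.mk' (N.subgroupOf N') (τ f) =
          QuotientGroup.mk' (N.subgroupOf N') x' := by
        rw [hτ']
        exact e.symm_apply_apply _
      have h2 : (τ f)⁻¹ * x' ∈ N.subgroupOf N' := QuotientGroup.eq.1 h1
      rw [Subgroup.mem_subgroupOf] at h2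
      have h3 : x = (τ f : H) * ((((τ f)⁻¹ * x' : N') : H)) := by
        simp [x']
      rw [h3]
      exact Subgroup.mul_mem _ ((le_sup_right : _ ≤ N ⊔ (N'.subtype.comp τ).range) ⟨f, rfl⟩)
        ((le_sup_left : N ≤ N ⊔ (N'.subtype.comp τ).range) h2)

end

variable {K : Type*} [Field K] {H : Type u} [Group H] {V : Type*} [Ring V] [Algebra K V]
  {j : H →* V}

/-- The trivial group. -/
theorem flatOn_bot : FlatOn.{w} (K := K) j (⊥ : Subgroup H) := by
  intro X' X _ _ _ _ ρ' ρ i hi hiρ m hm
  have hbot : ∀ {Z : Type w} [AddCommGroup Z] [Module K Z] (ρ₁ : Representation K H Z),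
      (II j ρ₁ (⊥ : Subgroup H) : Submodule K (MM K V Z)) = ⊥ := by
    intro Z _ _ ρ₁
    refine le_bot_iff.1 (II_le j ρ₁ fun g hg m => ?_)
    rw [Subgroup.mem_bot] at hg
    rw [hg, act_one]
    simp
  rw [hbot, Submodule.mem_bot] at hm ⊢
  obtain ⟨r, hr⟩ := i.exists_leftInverse_of_injective (LinearMap.ker_eq_bot.2 hi)
  have h1 : mapX V r (mapX V i m) = m := by
    rw [← LinearMap.comp_apply, ← mapX_comp, hr, mapX_id, LinearMap.id_apply]
  rw [← h1, hm, map_zero]

/-- One step along a pair `N ≤ N'` with free quotient. -/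
theorem flatOn_step (N N' : Subgroup H) [N.Normal] (hle : N ≤ N')
    (hfree : IsFreeGroup (N' ⧸ N.subgroupOf N')) {π : H ⧸ N → V →ₗ[K] V} {D : Set V}
    (h : Grading j (QuotientGroup.mk' N) π D) (hN : FlatOn.{w} (K := K) j N) :
    FlatOn.{w} (K := K) j N' := by
  obtain ⟨Y, σ, hσ, hsup⟩ := exists_section N N' hle hfree
  have hk : (QuotientGroup.mk' N).ker = N := QuotientGroup.ker_mk' N
  have := h.step σ hσ (by rw [hk]; exact hN)
  rwa [hk, hsup] at this

/-- **Flatness along a chain.** -/
theorem flatOn_chain (r : ℕ) (N : ℕ → Subgroup H) (h0 : N 0 = ⊤) (hr : N r = ⊥)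
    (hanti : Antitone N) (hnorm : ∀ s, (N s).Normal)
    (hfree : ∀ s < r, IsFreeGroup (N s ⧸ (N (s + 1)).subgroupOf (N s)))
    (hgr : ∀ s, s < r → haveI := hnorm (s + 1)
      ∃ (π : H ⧸ N (s + 1) → V →ₗ[K] V) (D : Set V),
        Grading j (QuotientGroup.mk' (N (s + 1))) π D) :
    FlatOn.{w} (K := K) j (⊤ : Subgroup H) := by
  have key : ∀ k, k ≤ r → FlatOn.{w} (K := K) j (N (r - k)) := by
    intro k
    induction k with
    | zero =>
      intro _
      rw [Nat.sub_zero, hr]
      exact flatOn_bot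
    | succ k ih =>
      intro hk
      have hs : r - (k + 1) < r := by omega
      have e : r - (k + 1) + 1 = r - k := by omega
      have := hnorm (r - (k + 1) + 1)
      obtain ⟨π, D, hG⟩ := hgr (r - (k + 1)) hs
      refine flatOn_step (N (r - (k + 1) + 1)) (N (r - (k + 1))) (hanti (Nat.le_succ _))
        (hfree _ hs) hG ?_
      rw [e]
      exact ih (by omega)
  have := key r le_rfl
  rwa [Nat.sub_self, h0] at this

end Pool.Agent.S11.FL
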