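import Pool.Agent.S11.Flat

/-!
# S11, flatness: the division ring with an anti-automorphism

`V` a division ring with `V ⊗ V` flat for the action `a ⊗ b ↦ a g⁻¹ ⊗ g b`, `i : D → V` a division subring which contains
the group and has an anti-automorphism `st` with `st g = g⁻¹`.  Then `D ⊗ D` is flat for the diagonal action
`a ⊗ b ↦ g a ⊗ g b`: it is a retract of `V ⊗ V` (`D → V` has a retraction which is linear over `D` on the right, and one
which is linear over `D` on the left).
-/

set_option autoImplicit false
set_option linter.unusedSectionVars false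

open TensorProduct

namespace Pool.Agent.S11.FL

section

variable {V D : Type} [DivisionRing V] [DivisionRing D]

/-- a retraction, linear over `D` on the left -/
theorem exists_retr_left (i : D →+* V) :
    ∃ p : V →+ D, (∀ d v, p (i d * v) = d * p v) ∧ ∀ d, p (i d) = d := by
  letI : Module D V := Module.compHom V i
  let I : D →ₗ[D] V :=
    { toFun := i
      map_add' := map_add i
      map_smul' := fun a b => by
        show i (a * b) = i a * i b
        exact map_mul i a b }
  have hI : LinearMap.ker I = ⊥ := LinearMap.ker_eq_bot.2 i.injective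
  obtain ⟨p, hp⟩ := LinearMap.exists_leftInverse_of_injective I hI
  refine ⟨p.toAddMonoidHom, fun d v => ?_, fun d => LinearMap.congr_fun hp d⟩
  exact p.map_smul d v

/-- a retraction, linear over `D` on the right -/
theorem exists_retr_right (i : D →+* V) :
    ∃ p : V →+ D, (∀ d v, p (v * i d) = p v * d) ∧ ∀ d, p (i d) = d := by
  letI : Module Dᵐᵒᵖ V := Module.compHom V (RingHom.op i)
  let I : D →ₗ[Dᵐᵒᵖ] V :=
    { toFun := i
      map_add' := map_add i
      map_smul' := fun a b => by
        show i (b * a.unop) = i b * i a.unop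
        exact map_mul i b a.unop }
  have hI : LinearMap.ker I = ⊥ := LinearMap.ker_eq_bot.2 i.injective
  obtain ⟨p, hp⟩ := LinearMap.exists_leftInverse_of_injective I hI
  refine ⟨p.toAddMonoidHom, fun d v => ?_, fun d => LinearMap.congr_fun hp d⟩
  exact p.map_smul (MulOpposite.op d) v

end

section

variable {H : Type} [Group H] {V D : Type} [DivisionRing V] [Module (ZMod 2) V] [DivisionRing D]
  [Module (ZMod 2) D]

/-- **Flatness for the diagonal action.** `R`, `L` = the actions `v ↦ v g⁻¹`, `v ↦ g v` on `V`; `T` = the action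
`d ↦ g d` on `D`. -/
theorem flat_star {R L : Representation (ZMod 2) H V} {T : Representation (ZMod 2) H D}
    {j : H → V} {k : H → D} (i : D →+* V) (hk : ∀ g, i (k g) = j g)
    (hR : ∀ g v, R g v = v * j g⁻¹) (hL : ∀ g v, L g v = j g * v) (hT : ∀ g d, T g d = k g * d)
    (st : D → D) (st_add : ∀ a b, st (a + b) = st a + st b) (st_mul : ∀ a b, st (a * b) = st b * st a)
    (st_st : ∀ a, st (st a) = a) (st_g : ∀ g, st (k g) = k g⁻¹)
    (h : Flat (R.tprod L)) : Flat (T.tprod T) := by
  obtain ⟨pl, hpl, hpl1⟩ := exists_retr_left i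
  obtain ⟨pr, hpr, hpr1⟩ := exists_retr_right i
  let S : D →+ D := AddMonoidHom.mk' st st_add
  have hS : ∀ a, S a = st a := fun _ => rfl
  let i₁ : D →ₗ[ZMod 2] V := (i.toAddMonoidHom.comp S).toZModLinearMap 2
  let i₂ : D →ₗ[ZMod 2] V := i.toAddMonoidHom.toZModLinearMap 2
  let p₁ : V →ₗ[ZMod 2] D := (S.comp pr).toZModLinearMap 2
  let p₂ : V →ₗ[ZMod 2] D := pl.toZModLinearMap 2
  have hi₁ : ∀ d, i₁ d = i (st d) := fun _ => rfl
  have hi₂ : ∀ d, i₂ d = i d := fun _ => rfl
  have hp₁ : ∀ v, p₁ v = st (pr v) := fun _ => rfl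
  have hp₂ : ∀ v, p₂ v = pl v := fun _ => rfl
  refine h.of_retract (TensorProduct.map i₁ i₂) (TensorProduct.map p₁ p₂) ?_ ?_ ?_
  · intro g m
    induction m with
    | zero => simp
    | add a b ha hb => simp only [map_add, ha, hb]
    | tmul a b =>
      simp only [Representation.tprod_apply, TensorProduct.map_tmul, hi₁, hi₂, hR, hL, hT]
      rw [st_mul, map_mul, map_mul, st_g, hk, hk]
  · intro g m
    induction m with
    | zero => simp
    | add a b ha hb => simp only [map_add, ha, hb]
    | tmul a b =>
      simp only [Representation.tprod_apply, TensorProduct.map_tmul, hp₁, hp₂, hR, hL, hT]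
      rw [← hk, ← hk, hpr, hpl, st_mul, st_g, inv_inv]
  · intro m
    induction m with
    | zero => simp
    | add a b ha hb => simp only [map_add, ha, hb]
    | tmul a b =>
      simp only [TensorProduct.map_tmul, hi₁, hi₂, hp₁, hp₂, hpr1, hpl1, st_st]

end

end Pool.Agent.S11.FL
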