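import Mathlib

/-!
# S11, flatness: definitions

`K` a field, `H` a group, `V` a `K`-algebra with a monoid homomorphism `j : H →* V`
(group elements).  For a representation `ρ` of `H` on `X` the group `H` acts on
`MM K V X = V ⊗ (X ⊗ V)` by `g (a ⊗ x ⊗ b) = a g⁻¹ ⊗ g x ⊗ g b`.  `II j ρ N` is the span of
all `g m - m`, `g ∈ N`.  `FlatOn j N` says that `X ↦ MM X / II N` preserves injections.
-/

open TensorProduct

namespace Pool.Agent.S11.FL

universe w

section

variable {K : Type*} [Field K] {H : Type*} [Group H] {V : Type*} [Ring V] [Algebra K V]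
  (j : H →* V)

variable (K V) in
/-- The module `V ⊗ (X ⊗ V)`. -/
abbrev MM (X : Type*) [AddCommGroup X] [Module K X] : Type _ := V ⊗[K] (X ⊗[K] V)

/-- The action of `g` on `V ⊗ (X ⊗ V)`: `a ⊗ x ⊗ b ↦ a g⁻¹ ⊗ g x ⊗ g b`. -/
noncomputable def act {X : Type*} [AddCommGroup X] [Module K X] (ρ : Representation K H X)
    (g : H) : MM K V X →ₗ[K] MM K V X :=
  TensorProduct.map (LinearMap.mulRight K (j g⁻¹))
    (TensorProduct.map (ρ g) (LinearMap.mulLeft K (j g)))

@[simp] theorem act_tmul {X : Type*} [AddCommGroup X] [Module K X] (ρ : Representation K H X)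
    (g : H) (a : V) (x : X) (b : V) :
    act j ρ g (a ⊗ₜ[K] (x ⊗ₜ[K] b)) = (a * j g⁻¹) ⊗ₜ[K] (ρ g x ⊗ₜ[K] (j g * b)) := by
  simp [act]

theorem act_one {X : Type*} [AddCommGroup X] [Module K X] (ρ : Representation K H X) :
    act j ρ 1 = LinearMap.id := by
  refine TensorProduct.ext' fun a t => ?_
  induction t with
  | zero => simp
  | add s t hs ht => rw [TensorProduct.tmul_add, map_add, map_add, hs, ht]
  | tmul x b => simp

theorem act_mul {X : Type*} [AddCommGroup X] [Module K X] (ρ : Representation K H X)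
    (g h : H) : act j ρ (g * h) = act j ρ g ∘ₗ act j ρ h := by
  refine TensorProduct.ext' fun a t => ?_
  induction t with
  | zero => simp
  | add s t hs ht => rw [TensorProduct.tmul_add, map_add, map_add, hs, ht]
  | tmul x b => simp [mul_assoc]

theorem act_mul_apply {X : Type*} [AddCommGroup X] [Module K X] (ρ : Representation K H X)
    (g h : H) (m : MM K V X) : act j ρ (g * h) m = act j ρ g (act j ρ h m) := by
  rw [act_mul]; rfl

theorem act_inv_apply {X : Type*} [AddCommGroup X] [Module K X] (ρ : Representation K H X)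
    (g : H) (m : MM K V X) : act j ρ g (act j ρ g⁻¹ m) = m := by
  rw [← act_mul_apply, mul_inv_cancel, act_one]; rfl

/-- The span of all `g m - m`, `g ∈ N`. -/
noncomputable def II {X : Type*} [AddCommGroup X] [Module K X] (ρ : Representation K H X)
    (N : Subgroup H) : Submodule K (MM K V X) :=
  Submodule.span K {z | ∃ g ∈ N, ∃ m : MM K V X, z = act j ρ g m - m}

theorem act_sub_mem {X : Type*} [AddCommGroup X] [Module K X] (ρ : Representation K H X)
    {N : Subgroup H} {g : H} (hg : g ∈ N) (m : MM K V X) : act j ρ g m - m ∈ II j ρ N :=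
  Submodule.subset_span ⟨g, hg, m, rfl⟩

theorem II_le {X : Type*} [AddCommGroup X] [Module K X] (ρ : Representation K H X)
    {N : Subgroup H} {L : Submodule K (MM K V X)}
    (h : ∀ g ∈ N, ∀ m : MM K V X, act j ρ g m - m ∈ L) : II j ρ N ≤ L := by
  refine Submodule.span_le.2 ?_
  rintro z ⟨g, hg, m, rfl⟩
  exact h g hg m

theorem II_mono {X : Type*} [AddCommGroup X] [Module K X] (ρ : Representation K H X)
    {N E : Subgroup H} (h : N ≤ E) : II j ρ N ≤ (II j ρ E : Submodule K (MM K V X)) :=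
  II_le j ρ fun _ hg m => act_sub_mem j ρ (h hg) m

/-- The map `V ⊗ (X' ⊗ V) → V ⊗ (X ⊗ V)` induced by `i : X' → X`. -/
noncomputable def mapX (V : Type*) [Ring V] [Algebra K V] {X' X : Type*} [AddCommGroup X']
    [Module K X'] [AddCommGroup X] [Module K X]
    (i : X' →ₗ[K] X) : MM K V X' →ₗ[K] MM K V X :=
  TensorProduct.map LinearMap.id (TensorProduct.map i LinearMap.id)

@[simp] theorem mapX_tmul {X' X : Type*} [AddCommGroup X'] [Module K X'] [AddCommGroup X]
    [Module K X] (i : X' →ₗ[K] X) (a : V) (x : X') (b : V) :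
    mapX V i (a ⊗ₜ[K] (x ⊗ₜ[K] b)) = a ⊗ₜ[K] (i x ⊗ₜ[K] b) := by
  simp [mapX]

/-- Two linear maps out of `V ⊗ (X ⊗ V)` which agree on pure tensors are equal. -/
theorem MM_ext {X : Type*} [AddCommGroup X] [Module K X] {P : Type*} [AddCommGroup P]
    [Module K P] {f g : MM K V X →ₗ[K] P}
    (h : ∀ (a : V) (x : X) (b : V), f (a ⊗ₜ[K] (x ⊗ₜ[K] b)) = g (a ⊗ₜ[K] (x ⊗ₜ[K] b))) :
    f = g := by
  refine TensorProduct.ext' fun a t => ?_
  induction t with
  | zero => simp
  | add s t hs ht => rw [TensorProduct.tmul_add, map_add, map_add, hs, ht]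
  | tmul x b => exact h a x b

theorem mapX_comp {X₁ X₂ X₃ : Type*} [AddCommGroup X₁] [Module K X₁] [AddCommGroup X₂]
    [Module K X₂] [AddCommGroup X₃] [Module K X₃] (f : X₁ →ₗ[K] X₂) (g : X₂ →ₗ[K] X₃) :
    mapX V (g ∘ₗ f) = mapX V g ∘ₗ mapX V f :=
  MM_ext fun a x b => by simp

theorem mapX_add {X₁ X₂ : Type*} [AddCommGroup X₁] [Module K X₁] [AddCommGroup X₂]
    [Module K X₂] (f g : X₁ →ₗ[K] X₂) : mapX V (f + g) = mapX V f + mapX V g :=
  MM_ext fun a x b => by simp [TensorProduct.add_tmul, TensorProduct.tmul_add]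

theorem mapX_id {X₁ : Type*} [AddCommGroup X₁] [Module K X₁] :
    mapX V (LinearMap.id : X₁ →ₗ[K] X₁) = LinearMap.id :=
  MM_ext fun a x b => by simp

theorem mapX_zero {X₁ X₂ : Type*} [AddCommGroup X₁] [Module K X₁] [AddCommGroup X₂]
    [Module K X₂] : mapX V (0 : X₁ →ₗ[K] X₂) = 0 :=
  MM_ext fun a x b => by simp

theorem mapX_act {X' X : Type*} [AddCommGroup X'] [Module K X'] [AddCommGroup X]
    [Module K X] (ρ' : Representation K H X') (ρ : Representation K H X) (i : X' →ₗ[K] X)
    (hi : ∀ g x, i (ρ' g x) = ρ g (i x)) (g : H) (m : MM K V X') :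
    mapX V i (act j ρ' g m) = act j ρ g (mapX V i m) := by
  have : mapX V i ∘ₗ act j ρ' g = act j ρ g ∘ₗ mapX V i :=
    MM_ext fun a x b => by simp [hi]
  exact LinearMap.congr_fun this m

theorem mapX_II {X' X : Type*} [AddCommGroup X'] [Module K X'] [AddCommGroup X]
    [Module K X] (ρ' : Representation K H X') (ρ : Representation K H X) (i : X' →ₗ[K] X)
    (hi : ∀ g x, i (ρ' g x) = ρ g (i x)) {N : Subgroup H} {m : MM K V X'}
    (hm : m ∈ II j ρ' N) : mapX V i m ∈ II j ρ N := by
  have : II j ρ' N ≤ (II j ρ N : Submodule K (MM K V X)).comap (mapX V i) := by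
    refine II_le j ρ' fun g hg m => ?_
    rw [Submodule.mem_comap, map_sub, mapX_act j ρ' ρ i hi]
    exact act_sub_mem j ρ hg _
  exact this hm

/-- `X ↦ MM X / II N` preserves injections. -/
def FlatOn (N : Subgroup H) : Prop :=
  ∀ (X' X : Type w) [AddCommGroup X'] [Module K X'] [AddCommGroup X] [Module K X]
    (ρ' : Representation K H X') (ρ : Representation K H X) (i : X' →ₗ[K] X),
    Function.Injective i → (∀ g x, i (ρ' g x) = ρ g (i x)) →
    ∀ m : MM K V X', mapX V i m ∈ II j ρ N → m ∈ II j ρ' N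

end

end Pool.Agent.S11.FL
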