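import Pool.Agent.S11.FL.Sep

/-!
# S11, flatness: gradings along a homomorphism and two-sided separation
-/

open TensorProduct

namespace Pool.Agent.S11.FL

set_option linter.unusedSectionVars false

variable {K : Type*} [Field K] {H : Type*} [Group H] {V : Type*} [Ring V] [Algebra K V]
  (j : H →* V) {Q : Type*} [Group Q]

/-- The data used in one step: `φ : H →* Q`, `π α` = restriction of the support to
`φ⁻¹(α)`, `D` = elements supported in `ker φ`. -/
structure Grading (φ : H →* Q) (π : Q → V →ₗ[K] V) (D : Set V) : Prop where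
  mul_mem : ∀ a ∈ D, ∀ b ∈ D, a * b ∈ D
  inv_mem : ∀ a ∈ D, a ≠ 0 → ∃ b ∈ D, a * b = 1 ∧ b * a = 1
  ker_mem : ∀ g ∈ φ.ker, j g ∈ D
  mulR : ∀ α a, ∀ d ∈ D, π α (a * d) = π α a * d
  mulL : ∀ α a, ∀ d ∈ D, π α (d * a) = d * π α a
  shiftR : ∀ α a g, π α (a * j g) = π (α * (φ g)⁻¹) a * j g
  shiftL : ∀ α a g, π α (j g * a) = j g * π ((φ g)⁻¹ * α) a
  sep : ∀ a, (∀ α, π α a = 0) → a = 0
  unitL : ∀ α, (∃ a, π α a ≠ 0) → ∃ g, ∀ a, j g * π α a ∈ D
  unitR : ∀ α, (∃ a, π α a ≠ 0) → ∃ g, ∀ a, π α a * j g ∈ D
  fin : ∀ a b α β, {f : Q | π (α * f) a ≠ 0 ∧ π (f⁻¹ * β) b ≠ 0}.Finite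

variable {j}

/-- `j g` as a unit. -/
def ju (j : H →* V) (g : H) : Vˣ where
  val := j g
  inv := j g⁻¹
  val_inv := by rw [← map_mul, mul_inv_cancel, map_one]
  inv_val := by rw [← map_mul, inv_mul_cancel, map_one]

/-- The component map `π α ⊗ (1 ⊗ π β)`. -/
noncomputable def comp (π : Q → V →ₗ[K] V) {X : Type*} [AddCommGroup X] [Module K X]
    (α β : Q) : MM K V X →ₗ[K] MM K V X :=
  TensorProduct.map (π α) (TensorProduct.map LinearMap.id (π β))

@[simp] theorem comp_tmul (π : Q → V →ₗ[K] V) {X : Type*} [AddCommGroup X] [Module K X]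
    (α β : Q) (a : V) (x : X) (b : V) :
    comp π α β (a ⊗ₜ[K] (x ⊗ₜ[K] b)) = (π α a) ⊗ₜ[K] (x ⊗ₜ[K] π β b) := by
  simp [comp]

namespace Grading

variable {φ : H →* Q} {π : Q → V →ₗ[K] V} {D : Set V} (h : Grading j φ π D)
include h

theorem comp_act {X : Type*} [AddCommGroup X] [Module K X] (ρ : Representation K H X)
    (α β : Q) (g : H) (m : MM K V X) :
    comp π α β (act j ρ g m) = act j ρ g (comp π (α * φ g) ((φ g)⁻¹ * β) m) := by
  have : comp π α β ∘ₗ act j ρ g = act j ρ g ∘ₗ comp π (α * φ g) ((φ g)⁻¹ * β) := by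
    refine MM_ext fun a x b => ?_
    simp [h.shiftR, h.shiftL]
  exact LinearMap.congr_fun this m

theorem comp_II {X : Type*} [AddCommGroup X] [Module K X] (ρ : Representation K H X)
    (α β : Q) {m : MM K V X} (hm : m ∈ II j ρ φ.ker) : comp π α β m ∈ II j ρ φ.ker := by
  have : II j ρ φ.ker ≤ (II j ρ φ.ker : Submodule K (MM K V X)).comap (comp π α β) := by
    refine II_le j ρ fun g hg m => ?_
    rw [Submodule.mem_comap, map_sub, h.comp_act, (MonoidHom.mem_ker).1 hg]
    simp only [mul_one, inv_one, one_mul]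
    exact act_sub_mem j ρ hg _
  exact this hm

end Grading

theorem act_II {X : Type*} [AddCommGroup X] [Module K X] (ρ : Representation K H X)
    {N : Subgroup H} (hN : ∀ g n, n ∈ N → g * n * g⁻¹ ∈ N)
    (g : H) {m : MM K V X} (hm : m ∈ II j ρ N) : act j ρ g m ∈ II j ρ N := by
  have : II j ρ N ≤ (II j ρ N : Submodule K (MM K V X)).comap (act j ρ g) := by
    refine II_le j ρ fun n hn m => ?_
    rw [Submodule.mem_comap, map_sub, ← act_mul_apply]
    have e : g * n = (g * n * g⁻¹) * g := by group
    rw [e, act_mul_apply]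
    exact act_sub_mem j ρ (hN g n hn) _
  exact this hm

/-- left multiplication on the first factor preserves `II`. -/
theorem mulLeft_II {X : Type*} [AddCommGroup X] [Module K X] (ρ : Representation K H X)
    (N : Subgroup H) (v : V) {m : MM K V X} (hm : m ∈ II j ρ N) :
    (LinearMap.mulLeft K v).rTensor (X ⊗[K] V) m ∈ II j ρ N := by
  have : II j ρ N ≤ (II j ρ N : Submodule K (MM K V X)).comap
      ((LinearMap.mulLeft K v).rTensor (X ⊗[K] V)) := by
    refine II_le j ρ fun n hn m => ?_
    rw [Submodule.mem_comap, map_sub]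
    have e : (LinearMap.mulLeft K v).rTensor (X ⊗[K] V) ∘ₗ act j ρ n =
        act j ρ n ∘ₗ (LinearMap.mulLeft K v).rTensor (X ⊗[K] V) :=
      MM_ext fun a x b => by simp [mul_assoc]
    rw [show (LinearMap.mulLeft K v).rTensor (X ⊗[K] V) (act j ρ n m) =
      act j ρ n ((LinearMap.mulLeft K v).rTensor (X ⊗[K] V) m) from LinearMap.congr_fun e m]
    exact act_sub_mem j ρ hn _
  exact this hm

/-- right multiplication on the last factor preserves `II`. -/
theorem mulRight_II {X : Type*} [AddCommGroup X] [Module K X] (ρ : Representation K H X)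
    (N : Subgroup H) (v : V) {m : MM K V X} (hm : m ∈ II j ρ N) :
    TensorProduct.map (LinearMap.id : V →ₗ[K] V)
      (TensorProduct.map (LinearMap.id : X →ₗ[K] X) (LinearMap.mulRight K v)) m ∈
      II j ρ N := by
  set R : MM K V X →ₗ[K] MM K V X := TensorProduct.map (LinearMap.id : V →ₗ[K] V)
      (TensorProduct.map (LinearMap.id : X →ₗ[K] X) (LinearMap.mulRight K v)) with hR
  have : II j ρ N ≤ (II j ρ N : Submodule K (MM K V X)).comap R := by
    refine II_le j ρ fun n hn m => ?_
    rw [Submodule.mem_comap, map_sub]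
    have e : R ∘ₗ act j ρ n = act j ρ n ∘ₗ R :=
      MM_ext fun a x b => by simp [hR, mul_assoc]
    rw [show R (act j ρ n m) = act j ρ n (R m) from LinearMap.congr_fun e m]
    exact act_sub_mem j ρ hn _
  exact this hm

namespace Grading

variable {φ : H →* Q} {π : Q → V →ₗ[K] V} {D : Set V} (h : Grading j φ π D)
include h

/-- Two-sided separation. -/
theorem mem_II {X : Type*} [AddCommGroup X] [Module K X] (ρ : Representation K H X)
    (N : Subgroup H) (w : MM K V X) (hw : ∀ α β, comp π α β w ∈ II j ρ N) : w ∈ II j ρ N := by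
  refine sepL D π h.mul_mem h.inv_mem h.mulR h.sep
    (fun α hα => (h.unitL α hα).imp' (ju j) fun g hg => hg) (II j ρ N)
    (fun v w hw => mulLeft_II ρ N v hw) w fun α => ?_
  -- second factor
  set w' : MM K V X := (π α).rTensor (X ⊗[K] V) w with hw'
  let e := TensorProduct.assoc K V X V
  let L : Submodule K ((V ⊗[K] X) ⊗[K] V) := (II j ρ N : Submodule K (MM K V X)).comap
    e.toLinearMap
  have key : e.symm w' ∈ L := by
    refine sepR D π h.mul_mem h.inv_mem h.mulL h.sep
      (fun α hα => (h.unitR α hα).imp' (ju j) fun g hg => hg) L ?_ _ fun β => ?_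
    · intro v z hz
      have e1 : e.toLinearMap ∘ₗ (LinearMap.mulRight K v).lTensor (V ⊗[K] X) =
          TensorProduct.map (LinearMap.id : V →ₗ[K] V)
            (TensorProduct.map (LinearMap.id : X →ₗ[K] X) (LinearMap.mulRight K v)) ∘ₗ
            e.toLinearMap := by
        refine TensorProduct.ext_threefold fun a x b => ?_
        simp [e]
      change e.toLinearMap ((LinearMap.mulRight K v).lTensor (V ⊗[K] X) z) ∈ II j ρ N
      rw [show e.toLinearMap ((LinearMap.mulRight K v).lTensor (V ⊗[K] X) z) =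
        TensorProduct.map (LinearMap.id : V →ₗ[K] V)
          (TensorProduct.map (LinearMap.id : X →ₗ[K] X) (LinearMap.mulRight K v))
          (e.toLinearMap z) from LinearMap.congr_fun e1 z]
      exact mulRight_II ρ N v hz
    · have e2 : e.toLinearMap ∘ₗ (π β).lTensor (V ⊗[K] X) ∘ₗ e.symm.toLinearMap ∘ₗ
          (π α).rTensor (X ⊗[K] V) = comp π α β := by
        refine MM_ext fun a x b => ?_
        simp [e]
      change e.toLinearMap ((π β).lTensor (V ⊗[K] X) (e.symm w')) ∈ II j ρ N
      rw [show e.toLinearMap ((π β).lTensor (V ⊗[K] X) (e.symm w')) = comp π α β w from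
        LinearMap.congr_fun e2 w]
      exact hw α β
  change e.toLinearMap (e.symm w') ∈ II j ρ N at key
  rwa [show e.toLinearMap (e.symm w') = w' from e.apply_symm_apply w'] at key

/-- Finiteness of `f ↦ comp π α β (f w)` along a homomorphism `σ` injective into `Q`. -/
theorem finite_comp {X : Type*} [AddCommGroup X] [Module K X] (ρ : Representation K H X)
    {F : Type*} [Group F] (σ : F →* H) (hσ : Function.Injective fun f => φ (σ f))
    (α β : Q) (w : MM K V X) : {f : F | comp π α β (act j ρ (σ f) w) ≠ 0}.Finite := by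
  induction w using TensorProduct.induction_on with
  | zero => simp
  | add s t hs ht =>
    refine (hs.union ht).subset fun f hf => ?_
    by_contra hcon
    simp only [Set.mem_union, Set.mem_setOf_eq, not_or, not_not] at hcon
    exact hf (by rw [map_add, map_add, hcon.1, hcon.2, add_zero])
  | tmul a t =>
    induction t with
    | zero => simp
    | add s t hs ht =>
      refine (hs.union ht).subset fun f hf => ?_
      by_contra hcon
      simp only [Set.mem_union, Set.mem_setOf_eq, not_or, not_not] at hcon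
      exact hf (by rw [TensorProduct.tmul_add, map_add, map_add, hcon.1, hcon.2, add_zero])
    | tmul x b =>
      refine ((h.fin a b α β).preimage (f := fun f : F => φ (σ f)) hσ.injOn).subset
        fun f hf => ?_
      simp only [Set.mem_setOf_eq, Set.mem_preimage] at hf ⊢
      rw [h.comp_act] at hf
      refine ⟨fun h0 => hf ?_, fun h0 => hf ?_⟩
      · rw [comp_tmul, h0, TensorProduct.zero_tmul, map_zero]
      · rw [comp_tmul, h0, TensorProduct.tmul_zero, TensorProduct.tmul_zero, map_zero]

end Grading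

end Pool.Agent.S11.FL
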