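import Pool.Agent.S11.FL.Chain
import Pool.Agent.S11.Cst

/-!
# S11, flatness: the grading on Malcev-Neumann series
-/

open TensorProduct

namespace Pool.Agent.S11.FL

section

variable {H : Type} [Group H] [BO H]

noncomputable instance instAlgMN : Algebra (ZMod 2) (MN H) :=
  Algebra.ofModule MN.smul_mul' MN.mul_smul''

variable (H) in
/-- The group elements. -/
noncomputable def gh : H →* MN H where
  toFun := MN.g
  map_one' := MN.g_one
  map_mul' := MN.g_mul

theorem gh_apply (g : H) : gh H g = MN.g g := rfl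

theorem g_mul_inv (g : H) : MN.g g * MN.g g⁻¹ = (1 : MN H) := by
  rw [← MN.g_mul, mul_inv_cancel, MN.g_one]

theorem g_inv_mul (g : H) : MN.g g⁻¹ * MN.g g = (1 : MN H) := by
  rw [← MN.g_mul, inv_mul_cancel, MN.g_one]

/-- The grading of `MN H` with respect to a convex normal subgroup. -/
theorem grading_MN (N : Subgroup H) [N.Normal] (hN : Cvx N) :
    Grading (K := ZMod 2) (gh H) (QuotientGroup.mk' N) (pr N) (DN N : Set (MN H)) where
  mul_mem a ha b hb := (DN N).mul_mem ha hb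
  inv_mem a ha h0 := ⟨a⁻¹, (DN N).inv_mem ha, mul_inv_cancel₀ h0, inv_mul_cancel₀ h0⟩
  ker_mem g hg := by
    rw [QuotientGroup.ker_mk'] at hg
    rw [gh_apply]
    refine (mem_DN N).2 fun x hx => ?_
    have h1 : (MN.g g * (1 : MN H)).c x ≠ 0 := by rwa [mul_one]
    rw [MN.c_g_mul] at h1
    by_cases hgx : g⁻¹ * x = 1
    · rwa [← inv_mul_eq_one.1 hgx]
    · exact absurd (MN.c_one_ne hgx) h1
  mulR α a d hd := pr_mul_d N α a hd
  mulL α a d hd := pr_d_mul N α a hd
  shiftR α a g := by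
    have h1 := pr_mul_g N (α * (QuotientGroup.mk' N g)⁻¹) g⁻¹ a
    rw [inv_inv] at h1
    rw [gh_apply, h1]
    congr 1
    simp
  shiftL α a g := by
    have h1 := pr_g_mul N ((QuotientGroup.mk' N g)⁻¹ * α) g a
    rw [gh_apply, h1]
    congr 1
    simp
  sep a h := eq_zero_of_pr N h
  unitL α hα := by
    obtain ⟨u, rfl⟩ := QuotientGroup.mk_surjective α
    refine ⟨u⁻¹, fun a => ?_⟩
    obtain ⟨d, hd, h1⟩ := pr_eq_g_mul N u a
    rw [gh_apply, h1, ← mul_assoc, g_inv_mul, one_mul]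
    exact hd
  unitR α hα := by
    obtain ⟨u, rfl⟩ := QuotientGroup.mk_surjective α
    refine ⟨u⁻¹, fun a => ?_⟩
    obtain ⟨d, hd, h1⟩ := pr_eq_mul_g N u a
    rw [gh_apply, h1, mul_assoc, g_mul_inv, mul_one]
    exact hd
  fin a b α β := by
    refine ((fin_cosets N hN a.pwo b.pwo (α * β)).preimage (f := fun f : H ⧸ N => α * f)
      (mul_right_injective α).injOn).subset fun f hf => ?_
    obtain ⟨h1, h2⟩ := hf
    have hex : ∀ (γ : H ⧸ N) (f : MN H), pr N γ f ≠ 0 → ∃ x, f.c x ≠ 0 ∧ (x : H ⧸ N) = γ := by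
      intro γ f hne
      by_contra hcon
      push Not at hcon
      apply hne
      ext x
      by_cases hx : (x : H ⧸ N) = γ
      · rw [pr_c N γ f x hx, MN.c_zero]
        by_contra h0
        exact hcon x h0 hx
      · rw [pr_c_ne N γ f x hx, MN.c_zero]
    obtain ⟨x, hx, hx'⟩ := hex _ _ h1
    obtain ⟨y, hy, hy'⟩ := hex _ _ h2
    refine ⟨⟨x, hx, hx'⟩, y, hy, ?_⟩
    rw [hy']
    simp [mul_inv_rev, mul_assoc]

/-- **Flatness of `V ⊗ V`**, first form. -/
theorem flatOn_MN {r : ℕ} {N : ℕ → Subgroup H} (hC : Chain H r N) :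
    FlatOn.{0} (K := ZMod 2) (gh H) (⊤ : Subgroup H) := by
  refine flatOn_chain r N hC.zero hC.last hC.anti hC.normal hC.free fun s _ => ?_
  have := hC.normal (s + 1)
  exact ⟨pr (N (s + 1)), _, grading_MN (N (s + 1)) (hC.cvx (s + 1))⟩

end

end Pool.Agent.S11.FL
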