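import Pool.Agent.S11.FL.Defs

/-!
# S11, flatness: separation

`D ⊆ V` closed under multiplication and inverses, `π α : V → V` maps which are right
`D`-linear, jointly injective, with `u * π α a ∈ D` for a unit `u`.  If `L ⊆ V ⊗ T` is stable
under left multiplications and `(π α ⊗ 1) w ∈ L` for all `α`, then `w ∈ L`.
-/

open TensorProduct

namespace Pool.Agent.S11.FL

variable {K : Type*} [Field K] {V : Type*} [Ring V] [Algebra K V] {Q : Type*}

/-- Separation in the first factor, for sums over a finite set. -/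
theorem sepL_sum {T : Type*} [AddCommGroup T] [Module K T] (D : Set V) (π : Q → V →ₗ[K] V)
    (hmul : ∀ a ∈ D, ∀ b ∈ D, a * b ∈ D)
    (hinv : ∀ a ∈ D, a ≠ 0 → ∃ b ∈ D, a * b = 1 ∧ b * a = 1)
    (hR : ∀ α a, ∀ d ∈ D, π α (a * d) = π α a * d)
    (hsep : ∀ a, (∀ α, π α a = 0) → a = 0)
    (hunit : ∀ α, (∃ a, π α a ≠ 0) → ∃ u : Vˣ, ∀ a, (u : V) * π α a ∈ D)
    (L : Submodule K (V ⊗[K] T))
    (hL : ∀ (v : V), ∀ w ∈ L, (LinearMap.mulLeft K v).rTensor T w ∈ L)
    {ι : Type*} (s : Finset ι) (t : ι → T) :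
    ∀ a : ι → V, (∀ α, ∑ i ∈ s, π α (a i) ⊗ₜ[K] t i ∈ L) → ∑ i ∈ s, a i ⊗ₜ[K] t i ∈ L := by
  classical
  induction s using Finset.strongInduction with
  | H s ih =>
    intro a ha
    by_cases h0 : ∀ i ∈ s, a i = 0
    · rw [Finset.sum_eq_zero fun i hi => by rw [h0 i hi, TensorProduct.zero_tmul]]
      exact L.zero_mem
    push Not at h0
    obtain ⟨k, hk, hak⟩ := h0
    obtain ⟨α, hα⟩ : ∃ α, π α (a k) ≠ 0 := by
      by_contra h
      push Not at h
      exact hak (hsep _ h)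
    obtain ⟨u, hu⟩ := hunit α ⟨a k, hα⟩
    have hck : (u : V) * π α (a k) ≠ 0 := fun h => hα (by
      have : ((u⁻¹ : Vˣ) : V) * ((u : V) * π α (a k)) = 0 := by rw [h, mul_zero]
      rwa [← mul_assoc, Units.inv_mul, one_mul] at this)
    obtain ⟨c, hcD, hc1, hc2⟩ := hinv _ (hu (a k)) hck
    set d : ι → V := fun i => c * ((u : V) * π α (a i)) with hd
    have hdD : ∀ i, d i ∈ D := fun i => hmul _ hcD _ (hu _)
    have hdk : d k = 1 := hc2
    -- the relation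
    have hrel : ∀ v : V, ∑ i ∈ s, (v * d i) ⊗ₜ[K] t i ∈ L := by
      intro v
      have := hL (v * c * u) _ (ha α)
      rw [map_sum] at this
      convert this using 2
      rw [LinearMap.rTensor_tmul, LinearMap.mulLeft_apply, hd]
      simp only [mul_assoc]
    set a' : ι → V := fun i => a i - a k * d i with ha'
    have ha'k : a' k = 0 := by simp [ha', hdk]
    have hsplit : ∀ (f : ι → V), f k = 0 →
        ∑ i ∈ s, f i ⊗ₜ[K] t i = ∑ i ∈ s.erase k, f i ⊗ₜ[K] t i := by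
      intro f hf
      rw [← Finset.add_sum_erase s _ hk, hf, TensorProduct.zero_tmul, zero_add]
    have key : ∑ i ∈ s.erase k, a' i ⊗ₜ[K] t i ∈ L := by
      refine ih (s.erase k) (Finset.erase_ssubset hk) a' fun β => ?_
      have h1 : ∀ i, π β (a' i) = π β (a i) - π β (a k) * d i := fun i => by
        rw [ha', map_sub, hR β (a k) (d i) (hdD i)]
      rw [← hsplit (fun i => π β (a' i)) (by simp [ha'k])]
      have h2 : ∑ i ∈ s, π β (a' i) ⊗ₜ[K] t i =
          ∑ i ∈ s, π β (a i) ⊗ₜ[K] t i - ∑ i ∈ s, (π β (a k) * d i) ⊗ₜ[K] t i := by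
        rw [← Finset.sum_sub_distrib]
        refine Finset.sum_congr rfl fun i _ => ?_
        rw [h1, TensorProduct.sub_tmul]
      rw [h2]
      exact L.sub_mem (ha β) (hrel _)
    rw [← hsplit a' ha'k] at key
    have h3 : ∑ i ∈ s, a i ⊗ₜ[K] t i =
        ∑ i ∈ s, a' i ⊗ₜ[K] t i + ∑ i ∈ s, (a k * d i) ⊗ₜ[K] t i := by
      rw [← Finset.sum_add_distrib]
      refine Finset.sum_congr rfl fun i _ => ?_
      rw [← TensorProduct.add_tmul, ha', sub_add_cancel]
    rw [h3]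
    exact L.add_mem key (hrel _)

/-- Separation in the first factor. -/
theorem sepL {T : Type*} [AddCommGroup T] [Module K T] (D : Set V) (π : Q → V →ₗ[K] V)
    (hmul : ∀ a ∈ D, ∀ b ∈ D, a * b ∈ D)
    (hinv : ∀ a ∈ D, a ≠ 0 → ∃ b ∈ D, a * b = 1 ∧ b * a = 1)
    (hR : ∀ α a, ∀ d ∈ D, π α (a * d) = π α a * d)
    (hsep : ∀ a, (∀ α, π α a = 0) → a = 0)
    (hunit : ∀ α, (∃ a, π α a ≠ 0) → ∃ u : Vˣ, ∀ a, (u : V) * π α a ∈ D)
    (L : Submodule K (V ⊗[K] T))
    (hL : ∀ (v : V), ∀ w ∈ L, (LinearMap.mulLeft K v).rTensor T w ∈ L)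
    (w : V ⊗[K] T) (hw : ∀ α, (π α).rTensor T w ∈ L) : w ∈ L := by
  obtain ⟨s, rfl⟩ := TensorProduct.exists_finset w
  refine sepL_sum D π hmul hinv hR hsep hunit L hL s (fun i => i.2) (fun i => i.1) fun α => ?_
  have := hw α
  rw [map_sum] at this
  simpa only [LinearMap.rTensor_tmul] using this

/-- Separation in the last factor, for sums over a finite set. -/
theorem sepR_sum {T : Type*} [AddCommGroup T] [Module K T] (D : Set V) (π : Q → V →ₗ[K] V)
    (hmul : ∀ a ∈ D, ∀ b ∈ D, a * b ∈ D)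
    (hinv : ∀ a ∈ D, a ≠ 0 → ∃ b ∈ D, a * b = 1 ∧ b * a = 1)
    (hR : ∀ α a, ∀ d ∈ D, π α (d * a) = d * π α a)
    (hsep : ∀ a, (∀ α, π α a = 0) → a = 0)
    (hunit : ∀ α, (∃ a, π α a ≠ 0) → ∃ u : Vˣ, ∀ a, π α a * (u : V) ∈ D)
    (L : Submodule K (T ⊗[K] V))
    (hL : ∀ (v : V), ∀ w ∈ L, (LinearMap.mulRight K v).lTensor T w ∈ L)
    {ι : Type*} (s : Finset ι) (t : ι → T) :
    ∀ a : ι → V, (∀ α, ∑ i ∈ s, t i ⊗ₜ[K] π α (a i) ∈ L) → ∑ i ∈ s, t i ⊗ₜ[K] a i ∈ L := by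
  classical
  induction s using Finset.strongInduction with
  | H s ih =>
    intro a ha
    by_cases h0 : ∀ i ∈ s, a i = 0
    · rw [Finset.sum_eq_zero fun i hi => by rw [h0 i hi, TensorProduct.tmul_zero]]
      exact L.zero_mem
    push Not at h0
    obtain ⟨k, hk, hak⟩ := h0
    obtain ⟨α, hα⟩ : ∃ α, π α (a k) ≠ 0 := by
      by_contra h
      push Not at h
      exact hak (hsep _ h)
    obtain ⟨u, hu⟩ := hunit α ⟨a k, hα⟩
    have hck : π α (a k) * (u : V) ≠ 0 := fun h => hα (by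
      have : (π α (a k) * (u : V)) * ((u⁻¹ : Vˣ) : V) = 0 := by rw [h, zero_mul]
      rwa [mul_assoc, Units.mul_inv, mul_one] at this)
    obtain ⟨c, hcD, hc1, hc2⟩ := hinv _ (hu (a k)) hck
    set d : ι → V := fun i => (π α (a i) * (u : V)) * c with hd
    have hdD : ∀ i, d i ∈ D := fun i => hmul _ (hu _) _ hcD
    have hdk : d k = 1 := hc1
    -- the relation
    have hrel : ∀ v : V, ∑ i ∈ s, t i ⊗ₜ[K] (d i * v) ∈ L := by
      intro v
      have := hL (u * (c * v)) _ (ha α)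
      rw [map_sum] at this
      convert this using 2
      rw [LinearMap.lTensor_tmul, LinearMap.mulRight_apply, hd]
      simp only [mul_assoc]
    set a' : ι → V := fun i => a i - d i * a k with ha'
    have ha'k : a' k = 0 := by simp [ha', hdk]
    have hsplit : ∀ (f : ι → V), f k = 0 →
        ∑ i ∈ s, t i ⊗ₜ[K] f i = ∑ i ∈ s.erase k, t i ⊗ₜ[K] f i := by
      intro f hf
      rw [← Finset.add_sum_erase s _ hk, hf, TensorProduct.tmul_zero, zero_add]
    have key : ∑ i ∈ s.erase k, t i ⊗ₜ[K] a' i ∈ L := by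
      refine ih (s.erase k) (Finset.erase_ssubset hk) a' fun β => ?_
      have h1 : ∀ i, π β (a' i) = π β (a i) - d i * π β (a k) := fun i => by
        rw [ha', map_sub, hR β (a k) (d i) (hdD i)]
      rw [← hsplit (fun i => π β (a' i)) (by simp [ha'k])]
      have h2 : ∑ i ∈ s, t i ⊗ₜ[K] π β (a' i) =
          ∑ i ∈ s, t i ⊗ₜ[K] π β (a i) - ∑ i ∈ s, t i ⊗ₜ[K] (d i * π β (a k)) := by
        rw [← Finset.sum_sub_distrib]
        refine Finset.sum_congr rfl fun i _ => ?_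
        rw [h1, TensorProduct.tmul_sub]
      rw [h2]
      exact L.sub_mem (ha β) (hrel _)
    rw [← hsplit a' ha'k] at key
    have h3 : ∑ i ∈ s, t i ⊗ₜ[K] a i =
        ∑ i ∈ s, t i ⊗ₜ[K] a' i + ∑ i ∈ s, t i ⊗ₜ[K] (d i * a k) := by
      rw [← Finset.sum_add_distrib]
      refine Finset.sum_congr rfl fun i _ => ?_
      rw [← TensorProduct.tmul_add, ha', sub_add_cancel]
    rw [h3]
    exact L.add_mem key (hrel _)

/-- Separation in the last factor. -/
theorem sepR {T : Type*} [AddCommGroup T] [Module K T] (D : Set V) (π : Q → V →ₗ[K] V)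
    (hmul : ∀ a ∈ D, ∀ b ∈ D, a * b ∈ D)
    (hinv : ∀ a ∈ D, a ≠ 0 → ∃ b ∈ D, a * b = 1 ∧ b * a = 1)
    (hR : ∀ α a, ∀ d ∈ D, π α (d * a) = d * π α a)
    (hsep : ∀ a, (∀ α, π α a = 0) → a = 0)
    (hunit : ∀ α, (∃ a, π α a ≠ 0) → ∃ u : Vˣ, ∀ a, π α a * (u : V) ∈ D)
    (L : Submodule K (T ⊗[K] V))
    (hL : ∀ (v : V), ∀ w ∈ L, (LinearMap.mulRight K v).lTensor T w ∈ L)
    (w : T ⊗[K] V) (hw : ∀ α, (π α).lTensor T w ∈ L) : w ∈ L := by
  obtain ⟨s, rfl⟩ := TensorProduct.exists_finset w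
  refine sepR_sum D π hmul hinv hR hsep hunit L hL s (fun i => i.1) (fun i => i.2) fun α => ?_
  have := hw α
  rw [map_sum] at this
  simpa only [LinearMap.lTensor_tmul] using this

end Pool.Agent.S11.FL
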