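import Mathlib

/-!
# S11, flatness (B): the Cayley tree of a free group has no finite cycle

`tree`: let `F = FreeGroup Y` act on an additive group `W`, let `P j : W →+ W'` be jointly injective
and let `f ↦ P j (f • w)` have finite support for all `j`, `w`. If `∑ y, (y • w y - w y) = 0` then
`w = 0`. `treeR` is the same for an action given by a homomorphism to the additive automorphisms.
-/

namespace Pool.Agent.S11.FL

universe u v w x

/-- A potential on the Cayley tree: every function on the edges is the coboundary of a function on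
the vertices. -/
theorem pot {Y : Type u} (ε : FreeGroup Y → Y → ℤ) :
    ∃ e : FreeGroup Y → ℤ, ∀ u y, e (u * FreeGroup.of y) = e u + ε u y := by
  classical
  -- the permutation `(u, n) ↦ (u y, n + ε u y)`
  let π : Y → Equiv.Perm (FreeGroup Y × ℤ) := fun y =>
    { toFun := fun p => (p.1 * FreeGroup.of y, p.2 + ε p.1 y)
      invFun := fun p => (p.1 * (FreeGroup.of y)⁻¹, p.2 - ε (p.1 * (FreeGroup.of y)⁻¹) y)
      left_inv := fun p => by
        refine Prod.ext ?_ ?_
        · simp
        · simp
      right_inv := fun p => by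
        refine Prod.ext ?_ ?_
        · simp
        · simp }
  let Ψ : FreeGroup Y →* Equiv.Perm (FreeGroup Y × ℤ) := FreeGroup.lift fun y => (π y)⁻¹
  have hΨ : ∀ y, Ψ (FreeGroup.of y) = (π y)⁻¹ := fun y => by
    simp only [Ψ, FreeGroup.lift_apply_of]
  have h1 : ∀ (v : FreeGroup Y) (p : FreeGroup Y × ℤ), (Ψ v p).1 = p.1 * v⁻¹ := by
    intro v
    induction v using FreeGroup.induction_on with
    | C1 => intro p; simp
    | of y => intro p; rw [hΨ]; rfl
    | inv_of y _ =>
      intro p
      rw [map_inv, hΨ, inv_inv, inv_inv]; rfl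
    | mul a b ha hb =>
      intro p
      rw [map_mul, Equiv.Perm.mul_apply, ha, hb]
      group
  refine ⟨fun v => (Ψ v⁻¹ (1, 0)).2, fun u y => ?_⟩
  have h2 : Ψ (u * FreeGroup.of y)⁻¹ (1, 0) = π y (Ψ u⁻¹ (1, 0)) := by
    rw [mul_inv_rev, map_mul, Equiv.Perm.mul_apply, map_inv Ψ (FreeGroup.of y), hΨ, inv_inv]
  have h3 : (Ψ u⁻¹ (1, 0)).1 = u := by rw [h1]; simp
  show (Ψ (u * FreeGroup.of y)⁻¹ (1, 0)).2 = _
  rw [h2]
  show (Ψ u⁻¹ (1, 0)).2 + ε (Ψ u⁻¹ (1, 0)).1 y = _
  rw [h3]

/-- The Cayley tree has no nonzero finite cycle. -/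
theorem tree_fun {Y : Type u} {A : Type v} [AddCommGroup A] (c : Y → FreeGroup Y → A)
    (s : Finset Y) (hc : ∀ y ∈ s, (Function.support (c y)).Finite)
    (h : ∀ f, ∑ y ∈ s, (c y (f * FreeGroup.of y) - c y f) = 0) :
    ∀ y ∈ s, ∀ f, c y f = 0 := by
  classical
  intro y₀ hy₀ g
  obtain ⟨e, he⟩ := pot (Y := Y) fun u y => if y = y₀ ∧ u * FreeGroup.of y = g then 1 else 0
  have hfin : ∀ y ∈ s, (Function.support fun f => c y (f * FreeGroup.of y)).Finite := by
    intro y hy
    have : (Function.support fun f => c y (f * FreeGroup.of y)) =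
        (fun f => f * FreeGroup.of y) ⁻¹' (Function.support (c y)) := rfl
    rw [this]
    exact (hc y hy).preimage (mul_left_injective _).injOn
  have hsm : ∀ (a : FreeGroup Y → ℤ) (b : FreeGroup Y → A),
      (Function.support fun f => a f • b f) ⊆ Function.support b := by
    intro a b f hf
    rw [Function.mem_support] at hf ⊢
    exact fun h0 => hf (by rw [h0, smul_zero])
  have hs1 : ∀ y ∈ s, (Function.support fun f => e f • c y (f * FreeGroup.of y)).Finite :=
    fun y hy => (hfin y hy).subset (hsm e _)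
  have hs2 : ∀ y ∈ s, (Function.support fun f => e f • c y f).Finite :=
    fun y hy => (hc y hy).subset (hsm e _)
  have key : ∀ y ∈ s, (∑ᶠ f, e f • (c y (f * FreeGroup.of y) - c y f)) =
      if y = y₀ then - c y₀ g else 0 := by
    intro y hy
    have hA : (∑ᶠ f, e f • (c y (f * FreeGroup.of y) - c y f)) =
        (∑ᶠ f, e f • c y (f * FreeGroup.of y)) - ∑ᶠ f, e f • c y f := by
      rw [← finsum_sub_distrib (hs1 y hy) (hs2 y hy)]
      exact finsum_congr fun f => smul_sub _ _ _
    have hB : (∑ᶠ f, e f • c y (f * FreeGroup.of y)) =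
        ∑ᶠ f, e (f * (FreeGroup.of y)⁻¹) • c y f := by
      rw [← finsum_comp_equiv (Equiv.mulRight (FreeGroup.of y))
        (f := fun f => e (f * (FreeGroup.of y)⁻¹) • c y f)]
      refine finsum_congr fun f => ?_
      simp
    have hs3 : (Function.support fun f => e (f * (FreeGroup.of y)⁻¹) • c y f).Finite :=
      (hc y hy).subset
        (hsm (fun f => e (f * (FreeGroup.of y)⁻¹)) _)
    rw [hA, hB, ← finsum_sub_distrib hs3 (hs2 y hy)]
    have hC : ∀ f, e (f * (FreeGroup.of y)⁻¹) • c y f - e f • c y f =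
        - ((if y = y₀ ∧ f = g then (1 : ℤ) else 0) • c y f) := by
      intro f
      have := he (f * (FreeGroup.of y)⁻¹) y
      rw [inv_mul_cancel_right] at this
      rw [this, add_smul]
      abel
    rw [finsum_congr hC]
    by_cases hyy : y = y₀
    · subst hyy
      rw [if_pos rfl, finsum_eq_single _ g]
      · simp
      · intro f hf
        simp [hf]
    · rw [if_neg hyy]
      have h0 : ∀ f : FreeGroup Y,
          - ((if y = y₀ ∧ f = g then (1 : ℤ) else 0) • c y f) = 0 := fun f => by simp [hyy]
      rw [finsum_congr h0, finsum_zero]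
  have hsum : (∑ y ∈ s, ∑ᶠ f, e f • (c y (f * FreeGroup.of y) - c y f)) = 0 := by
    rw [← finsum_sum_comm]
    · have h0 : ∀ f : FreeGroup Y,
          (∑ y ∈ s, e f • (c y (f * FreeGroup.of y) - c y f)) = 0 := fun f => by
        rw [← Finset.smul_sum, h f, smul_zero]
      rw [finsum_congr h0, finsum_zero]
    · intro y hy
      have : (fun f => e f • (c y (f * FreeGroup.of y) - c y f)) =
          (fun f => e f • c y (f * FreeGroup.of y)) - fun f => e f • c y f := by
        funext f; simp [smul_sub]
      rw [this]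
      exact ((hs1 y hy).union (hs2 y hy)).subset (Function.support_sub _ _)
  rw [Finset.sum_congr rfl key, Finset.sum_ite_eq' s y₀, if_pos hy₀] at hsum
  exact neg_eq_zero.mp hsum

/-- The same for a family of functions which vanish outside of a finite set of generators. -/
theorem fox {Y : Type u} {A : Type v} [AddCommGroup A] (c : Y → FreeGroup Y → A) (s : Finset Y)
    (hs : ∀ y, y ∉ s → c y = 0) (hf : ∀ y, (Function.support (c y)).Finite)
    (h : ∀ f, ∑ y ∈ s, (c y (f * FreeGroup.of y) - c y f) = 0) : ∀ y f, c y f = 0 := by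
  intro y f
  by_cases hy : y ∈ s
  · exact tree_fun c s (fun y _ => hf y) h y hy f
  · rw [hs y hy]; rfl

/-- **(B)**, for an action given by a homomorphism. -/
theorem treeR {Y : Type u} {W : Type v} {W' : Type w} {J : Type x} [AddCommGroup W]
    [AddCommGroup W'] (r : FreeGroup Y →* AddMonoid.End W) (P : J → W →+ W')
    (hinj : ∀ w, (∀ j, P j w = 0) → w = 0)
    (hfin : ∀ j w, {f : FreeGroup Y | P j (r f w) ≠ 0}.Finite)
    (w : Y →₀ W) (h : (w.sum fun y v => r (FreeGroup.of y) v - v) = 0) : w = 0 := by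
  classical
  ext y₀
  show w y₀ = 0
  by_cases hy₀ : y₀ ∈ w.support
  swap
  · exact Finsupp.notMem_support_iff.mp hy₀
  refine hinj _ fun j => ?_
  have := tree_fun (fun y f => P j (r f (w y))) w.support (fun y _ => hfin j (w y)) (by
    intro f
    have h2 := congrArg (fun v => P j (r f v)) h
    simp only [Finsupp.sum, map_sum, map_sub, map_zero] at h2
    rw [← h2]
    refine Finset.sum_congr rfl fun y _ => ?_
    rw [map_mul]
    rfl) y₀ hy₀ 1
  simpa using this

/-- **(B)**: an action of the free group by additive maps. -/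
theorem tree {Y : Type u} {W : Type v} {W' : Type w} {J : Type x} [AddCommGroup W]
    [AddCommGroup W'] [DistribMulAction (FreeGroup Y) W] (P : J → W →+ W')
    (hinj : ∀ w, (∀ j, P j w = 0) → w = 0)
    (hfin : ∀ j w, {f : FreeGroup Y | P j (f • w) ≠ 0}.Finite)
    (w : Y →₀ W) (h : (w.sum fun y v => FreeGroup.of y • v - v) = 0) : w = 0 :=
  treeR (DistribMulAction.toAddMonoidEnd (FreeGroup Y) W) P hinj hfin w h

end Pool.Agent.S11.FL
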