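import Pool.Agent.S11.FL.Grade
import Pool.Agent.S11.FL.Tree

/-!
# S11, flatness: the induction step
-/

open TensorProduct

namespace Pool.Agent.S11.FL

universe w

variable {K : Type*} [Field K] {H : Type*} [Group H] {V : Type*} [Ring V] [Algebra K V]
  {j : H →* V} {Q : Type*} [Group Q] {Y : Type*}

variable (j) in
/-- `(w_y) ↦ ∑ (σ y - 1) w_y`. -/
noncomputable def Phi {X : Type*} [AddCommGroup X] [Module K X] (ρ : Representation K H X)
    (σ : FreeGroup Y →* H) : (Y →₀ MM K V X) →ₗ[K] MM K V X :=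
  Finsupp.lsum K fun y => act j ρ (σ (FreeGroup.of y)) - LinearMap.id

theorem Phi_apply {X : Type*} [AddCommGroup X] [Module K X] (ρ : Representation K H X)
    (σ : FreeGroup Y →* H) (w : Y →₀ MM K V X) :
    Phi j ρ σ w = ∑ y ∈ w.support, (act j ρ (σ (FreeGroup.of y)) (w y) - w y) := by
  rw [Phi, Finsupp.lsum_apply, Finsupp.sum]
  rfl

theorem Phi_single {X : Type*} [AddCommGroup X] [Module K X] (ρ : Representation K H X)
    (σ : FreeGroup Y →* H) (y : Y) (m : MM K V X) :
    Phi j ρ σ (Finsupp.single y m) = act j ρ (σ (FreeGroup.of y)) m - m := by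
  rw [Phi, Finsupp.lsum_single]
  rfl

theorem Phi_sub {X : Type*} [AddCommGroup X] [Module K X] (ρ : Representation K H X)
    (σ : FreeGroup Y →* H) (w w' : Y →₀ MM K V X) :
    Phi j ρ σ (w - w') = Phi j ρ σ w - Phi j ρ σ w' := by
  have h := map_add (Phi j ρ σ) (w - w') w'
  have e : (w - w') + w' = w := by
    refine Finsupp.ext fun y => ?_
    rw [Finsupp.add_apply, Finsupp.sub_apply, sub_add_cancel]
  rw [e] at h
  exact eq_sub_of_add_eq h.symm

theorem II_sup_le {X : Type*} [AddCommGroup X] [Module K X] (ρ : Representation K H X)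
    (N : Subgroup H) (σ : FreeGroup Y →* H) :
    (II j ρ (N ⊔ σ.range) : Submodule K (MM K V X)) ≤
      II j ρ N ⊔ LinearMap.range (Phi (K := K) j ρ σ) := by
  set J : Submodule K (MM K V X) := II j ρ N ⊔ LinearMap.range (Phi (K := K) j ρ σ) with hJ
  let S : Subgroup H :=
    { carrier := {g | ∀ m : MM K V X, act j ρ g m - m ∈ J}
      one_mem' := fun m => by rw [act_one]; simp
      mul_mem' := by
        intro a b ha hb m
        have : act j ρ (a * b) m - m = (act j ρ a (act j ρ b m) - act j ρ b m) +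
            (act j ρ b m - m) := by rw [act_mul_apply]; abel
        rw [this]
        exact J.add_mem (ha _) (hb _)
      inv_mem' := by
        intro a ha m
        have h1 := ha (act j ρ a⁻¹ m)
        rw [act_inv_apply] at h1
        have := J.neg_mem h1
        rwa [neg_sub] at this }
  have hN : N ≤ S := fun g hg m => (le_sup_left : II j ρ N ≤ J) (act_sub_mem j ρ hg m)
  have hσ : σ.range ≤ S := by
    rw [MonoidHom.range_eq_map, ← FreeGroup.closure_range_of, MonoidHom.map_closure,
      Subgroup.closure_le]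
    rintro _ ⟨_, ⟨y, rfl⟩, rfl⟩ m
    refine (le_sup_right : LinearMap.range (Phi (K := K) j ρ σ) ≤ J) ?_
    exact ⟨Finsupp.single y m, Phi_single ρ σ y m⟩
  refine II_le j ρ fun g hg m => ?_
  exact (sup_le hN hσ : N ⊔ σ.range ≤ S) hg m

theorem Phi_mem_sup {X : Type*} [AddCommGroup X] [Module K X] (ρ : Representation K H X)
    (N : Subgroup H) (σ : FreeGroup Y →* H) (w : Y →₀ MM K V X) :
    Phi j ρ σ w ∈ II j ρ (N ⊔ σ.range) := by
  rw [Phi_apply]
  exact Submodule.sum_mem _ fun y _ =>
    act_sub_mem j ρ ((le_sup_right : σ.range ≤ N ⊔ σ.range) ⟨_, rfl⟩) _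

/-- The statement (T): `∑ (σ y - 1) w_y ≡ 0` implies all `w_y ≡ 0`. -/
theorem Grading.T {φ : H →* Q} {π : Q → V →ₗ[K] V} {D : Set V} (h : Grading j φ π D)
    {X : Type*} [AddCommGroup X] [Module K X] (ρ : Representation K H X)
    (σ : FreeGroup Y →* H) (hσ : Function.Injective fun f => φ (σ f))
    (w : Y →₀ MM K V X) (hw : Phi j ρ σ w ∈ II j ρ φ.ker) (y : Y) : w y ∈ II j ρ φ.ker := by
  classical
  refine h.mem_II ρ φ.ker (w y) fun α β => ?_
  let L : Submodule K (MM K V X) := II j ρ φ.ker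
  let c : Y → FreeGroup Y → (MM K V X ⧸ L) := fun y f =>
    L.mkQ (comp π α β (act j ρ (σ f) (w y)))
  have hc : ∀ y f, c y f = 0 := by
    refine fox c w.support ?_ ?_ ?_
    · intro y hy
      funext f
      simp [c, Finsupp.notMem_support_iff.1 hy]
    · intro y
      refine (h.finite_comp ρ σ hσ α β (w y)).subset fun f hf => ?_
      intro h0
      exact hf (by simp only [c]; rw [h0, map_zero])
    · intro f
      have e : ∑ y ∈ w.support, (c y (f * FreeGroup.of y) - c y f) =
          L.mkQ (comp π α β (act j ρ (σ f) (Phi j ρ σ w))) := by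
        rw [Phi_apply, map_sum, map_sum, map_sum]
        refine Finset.sum_congr rfl fun y _ => ?_
        simp only [c]
        rw [map_mul, act_mul_apply, map_sub, map_sub, map_sub]
      rw [e, Submodule.mkQ_apply, Submodule.Quotient.mk_eq_zero]
      exact h.comp_II ρ α β (act_II ρ (fun g n hn => φ.normal_ker.conj_mem n hn g) _ hw)
  have := hc y 1
  simp only [c] at this
  rw [map_one, act_one, Submodule.mkQ_apply, Submodule.Quotient.mk_eq_zero] at this
  exact this

/-- The induction step. -/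
theorem Grading.step {φ : H →* Q} {π : Q → V →ₗ[K] V} {D : Set V} (h : Grading j φ π D)
    (σ : FreeGroup Y →* H) (hσ : Function.Injective fun f => φ (σ f))
    (hN : FlatOn.{w} (K := K) j φ.ker) : FlatOn.{w} (K := K) j (φ.ker ⊔ σ.range) := by
  classical
  intro X' X _ _ _ _ ρ' ρ i hi hiρ m hm
  -- retraction and quotient
  obtain ⟨r, hr⟩ := i.exists_leftInverse_of_injective (LinearMap.ker_eq_bot.2 hi)
  let R : Submodule K X := LinearMap.range i
  have hR : ∀ g, R ≤ R.comap (ρ g) := by
    rintro g _ ⟨x, rfl⟩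
    exact ⟨ρ' g x, hiρ g x⟩
  let ρ'' : Representation K H (X ⧸ R) :=
    { toFun := fun g => R.mapQ R (ρ g) (hR g)
      map_one' := by
        refine LinearMap.ext fun x => ?_
        obtain ⟨x, rfl⟩ := R.mkQ_surjective x
        simp
      map_mul' := fun g g' => by
        refine LinearMap.ext fun x => ?_
        obtain ⟨x, rfl⟩ := R.mkQ_surjective x
        simp }
  have hp : ∀ g x, R.mkQ (ρ g x) = ρ'' g (R.mkQ x) := fun g x => by
    simp [ρ'']
  -- section of the quotient map
  obtain ⟨s, hs⟩ := R.mkQ.exists_rightInverse_of_surjective (LinearMap.range_eq_top.2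
    R.mkQ_surjective)
  -- kernel of `mapX mkQ`
  have hker : ∀ z : MM K V X, mapX V R.mkQ z = 0 → ∃ z' : MM K V X', mapX V i z' = z := by
    intro z hz
    -- a projection `q = id - s ∘ mkQ` with values in the range of `i`
    have hq : ∀ x, x - s (R.mkQ x) ∈ R := fun x => by
      have h1 : R.mkQ (x - s (R.mkQ x)) = 0 := by
        rw [map_sub, show R.mkQ (s (R.mkQ x)) = R.mkQ x from
          LinearMap.congr_fun hs (R.mkQ x), sub_self]
      exact (Submodule.Quotient.mk_eq_zero R).1 h1
    have hid : (LinearMap.id : X →ₗ[K] X) = i ∘ₗ (r ∘ₗ (LinearMap.id - s ∘ₗ R.mkQ)) +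
        s ∘ₗ R.mkQ := by
      refine LinearMap.ext fun x => ?_
      obtain ⟨x', hx'⟩ := hq x
      simp only [LinearMap.id_apply, LinearMap.add_apply, LinearMap.comp_apply,
        LinearMap.sub_apply]
      rw [← hx', show r (i x') = x' from LinearMap.congr_fun hr x', hx', sub_add_cancel]
    refine ⟨mapX V (r ∘ₗ (LinearMap.id - s ∘ₗ R.mkQ)) z, ?_⟩
    have e := congrArg (fun f => mapX V f z) hid
    simp only [mapX_id, mapX_add, LinearMap.id_apply, LinearMap.add_apply] at e
    rw [mapX_comp, mapX_comp (V := V) R.mkQ s, LinearMap.comp_apply, LinearMap.comp_apply, hz,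
      map_zero, add_zero] at e
    exact e.symm
  have hpi : ∀ z : MM K V X', mapX V R.mkQ (mapX V i z) = 0 := by
    intro z
    have : R.mkQ ∘ₗ i = 0 := by
      refine LinearMap.ext fun x => ?_
      simp only [LinearMap.comp_apply, LinearMap.zero_apply]
      exact (Submodule.Quotient.mk_eq_zero R).2 ⟨x, rfl⟩
    rw [← LinearMap.comp_apply, ← mapX_comp, this, mapX_zero, LinearMap.zero_apply]
  -- lifting of `II`
  have hlift : ∀ z : MM K V (X ⧸ R), z ∈ II j ρ'' φ.ker →
      ∃ z' ∈ II j ρ φ.ker, mapX V R.mkQ z' = z := by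
    intro z hz
    have : II j ρ'' φ.ker ≤ (II j ρ φ.ker : Submodule K (MM K V X)).map (mapX V R.mkQ) := by
      refine II_le j ρ'' fun g hg m => ?_
      have hm : mapX V R.mkQ (mapX V s m) = m := by
        rw [← LinearMap.comp_apply, ← mapX_comp, hs, mapX_id, LinearMap.id_apply]
      refine ⟨act j ρ g (mapX V s m) - mapX V s m, act_sub_mem j ρ hg _, ?_⟩
      rw [map_sub, mapX_act j ρ ρ'' R.mkQ hp, hm]
    exact this hz
  -- decomposition of `mapX i m`
  obtain ⟨z, hz, _, ⟨w, rfl⟩, hzw⟩ := Submodule.mem_sup.1 (II_sup_le ρ φ.ker σ hm)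
  -- all components vanish in the quotient
  have hPhi : ∀ {X₁ X₂ : Type w} [AddCommGroup X₁] [Module K X₁] [AddCommGroup X₂] [Module K X₂]
      (ρ₁ : Representation K H X₁) (ρ₂ : Representation K H X₂) (f : X₁ →ₗ[K] X₂)
      (_ : ∀ g x, f (ρ₁ g x) = ρ₂ g (f x)) (w : Y →₀ MM K V X₁),
      mapX V f (Phi j ρ₁ σ w) = Phi j ρ₂ σ (w.mapRange (mapX V f) (map_zero _)) := by
    intro X₁ X₂ _ _ _ _ ρ₁ ρ₂ f hf w
    have : mapX V f ∘ₗ Phi j ρ₁ σ = Phi j ρ₂ σ ∘ₗ Finsupp.mapRange.linearMap (mapX V f) := by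
      refine Finsupp.lhom_ext fun y m => ?_
      rw [LinearMap.comp_apply, LinearMap.comp_apply, Phi_single, map_sub,
        mapX_act j ρ₁ ρ₂ f hf, Finsupp.mapRange.linearMap_apply, Finsupp.mapRange_single,
        Phi_single]
    exact LinearMap.congr_fun this w
  have hwq : ∀ y, mapX V R.mkQ (w y) ∈ II j ρ'' φ.ker := by
    have h1 : Phi j ρ'' σ (w.mapRange (mapX V R.mkQ) (map_zero _)) ∈ II j ρ'' φ.ker := by
      rw [← hPhi ρ ρ'' R.mkQ hp w]
      have h2 : mapX V R.mkQ (Phi j ρ σ w) = - mapX V R.mkQ z := by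
        have h3 := congrArg (mapX V R.mkQ) hzw
        rw [map_add, hpi] at h3
        rw [eq_neg_iff_add_eq_zero, add_comm]
        exact h3
      rw [h2]
      exact Submodule.neg_mem _ (mapX_II j ρ ρ'' R.mkQ hp hz)
    intro y
    have := h.T ρ'' σ hσ _ h1 y
    rwa [Finsupp.mapRange_apply] at this
  -- lift
  have hex : ∀ y, ∃ z' : MM K V X', w y - mapX V i z' ∈ II j ρ φ.ker := by
    intro y
    obtain ⟨u, hu, hu'⟩ := hlift _ (hwq y)
    obtain ⟨z', hz'⟩ := hker (w y - u) (by rw [map_sub, hu', sub_self])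
    exact ⟨z', by rw [hz', sub_sub_cancel]; exact hu⟩
  choose g hg using hex
  let w' : Y →₀ MM K V X' := Finsupp.onFinset w.support
    (fun y => if y ∈ w.support then g y else 0) (fun y hy => by
      by_contra hcon
      exact hy (if_neg hcon))
  have hw' : ∀ y, w y - mapX V i (w' y) ∈ II j ρ φ.ker := by
    intro y
    by_cases hy : y ∈ w.support
    · have : w' y = g y := by simp only [w', Finsupp.onFinset_apply, if_pos hy]
      rw [this]
      exact hg y
    · have : w' y = 0 := by simp only [w', Finsupp.onFinset_apply, if_neg hy]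
      rw [this, Finsupp.notMem_support_iff.1 hy, map_zero, sub_zero]
      exact Submodule.zero_mem _
  have hfin : mapX V i (m - Phi j ρ' σ w') ∈ II j ρ φ.ker := by
    have e : mapX V i (m - Phi j ρ' σ w') =
        z + Phi j ρ σ (w - w'.mapRange (mapX V i) (map_zero _)) := by
      rw [map_sub, hPhi ρ' ρ i hiρ, Phi_sub, ← hzw]
      abel
    rw [e]
    refine Submodule.add_mem _ hz ?_
    rw [Phi_apply]
    refine Submodule.sum_mem _ fun y _ => ?_
    have h4 : (w - w'.mapRange (mapX V i) (map_zero _)) y ∈ II j ρ φ.ker := by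
      rw [Finsupp.sub_apply, Finsupp.mapRange_apply]
      exact hw' y
    exact Submodule.sub_mem _ (act_II ρ (fun g n hn => φ.normal_ker.conj_mem n hn g) _ h4) h4
  have h5 := hN X' X ρ' ρ i hi hiρ _ hfin
  have h6 : m = (m - Phi j ρ' σ w') + Phi j ρ' σ w' := by abel
  rw [h6]
  exact Submodule.add_mem _ (II_mono j ρ' le_sup_left h5) (Phi_mem_sup ρ' φ.ker σ w')

end Pool.Agent.S11.FL
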