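import Pool.Agent.S11.FL.Inst
import Pool.Agent.S11.Flat

/-!
# S11, flatness: translation into `Flat`
-/

open TensorProduct

namespace Pool.Agent.S11

section

variable {H : Type} [Group H] [BO H]

variable (H) in
/-- `V ⊗ V` with the action `a ⊗ b ↦ a h⁻¹ ⊗ h b` -/
noncomputable def τVV : Representation (ZMod 2) H (MN H ⊗[ZMod 2] MN H) := (ρR H).tprod (ρL H)

namespace FL

variable (X : Type) [AddCommGroup X] [Module (ZMod 2) X]

variable (H) in
/-- rearrangement of the factors -/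
noncomputable def Th : X ⊗[ZMod 2] (MN H ⊗[ZMod 2] MN H) ≃ₗ[ZMod 2] MM (ZMod 2) (MN H) X :=
  TensorProduct.leftComm (ZMod 2) X (MN H) (MN H)

theorem Th_tmul (x : X) (a b : MN H) : Th H X (x ⊗ₜ[ZMod 2] (a ⊗ₜ[ZMod 2] b)) =
    (a ⊗ₜ[ZMod 2] (x ⊗ₜ[ZMod 2] b) : MM (ZMod 2) (MN H) X) := rfl

variable {X}

theorem Th_act (ρ : Representation (ZMod 2) H X) (g : H) (t : X ⊗[ZMod 2] (MN H ⊗[ZMod 2] MN H)) :
    Th H X ((ρ.tprod (τVV H)) g t) = act (gh H) ρ g (Th H X t) := by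
  have : (Th H X).toLinearMap ∘ₗ (ρ.tprod (τVV H)) g =
      act (gh H) ρ g ∘ₗ (Th H X).toLinearMap := by
    refine TensorProduct.ext_threefold' fun x a b => ?_
    change Th H X (ρ g x ⊗ₜ[ZMod 2] ((ρR H g a) ⊗ₜ[ZMod 2] (ρL H g b))) = _
    rw [Th_tmul, LinearMap.comp_apply]
    change _ = act (gh H) ρ g (a ⊗ₜ[ZMod 2] (x ⊗ₜ[ZMod 2] b))
    rw [act_tmul]
    rfl
  exact LinearMap.congr_fun this t

theorem Th_Kr (ρ : Representation (ZMod 2) H X) (t : X ⊗[ZMod 2] (MN H ⊗[ZMod 2] MN H)) :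
    Th H X t ∈ II (gh H) ρ ⊤ ↔ t ∈ Kr (ρ.tprod (τVV H)) ⊤ := by
  constructor
  · intro ht
    have h1 : II (gh H) ρ ⊤ ≤ (Kr (ρ.tprod (τVV H)) ⊤).comap (Th H X).symm.toLinearMap := by
      refine II_le (gh H) ρ fun g hg m => ?_
      rw [Submodule.mem_comap]
      have h2 : (Th H X).symm.toLinearMap (act (gh H) ρ g m - m) =
          (ρ.tprod (τVV H)) g ((Th H X).symm m) - (Th H X).symm m := by
        change (Th H X).symm (act (gh H) ρ g m - m) = _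
        rw [LinearEquiv.symm_apply_eq, map_sub, Th_act, LinearEquiv.apply_symm_apply]
      rw [h2]
      exact sub_mem_Kr _ hg _
    have := h1 ht
    rw [Submodule.mem_comap] at this
    change (Th H X).symm (Th H X t) ∈ _ at this
    rwa [LinearEquiv.symm_apply_apply] at this
  · intro ht
    have h1 : Kr (ρ.tprod (τVV H)) ⊤ ≤ (II (gh H) ρ ⊤).comap (Th H X).toLinearMap := by
      refine Submodule.span_le.2 ?_
      rintro _ ⟨g, hg, m, rfl⟩
      change Th H X ((ρ.tprod (τVV H)) g m - m) ∈ II (gh H) ρ ⊤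
      rw [map_sub, Th_act]
      exact act_sub_mem (gh H) ρ hg _
    exact h1 ht

theorem Th_rTensor {X' : Type} [AddCommGroup X'] [Module (ZMod 2) X'] (f : X →ₗ[ZMod 2] X')
    (t : X ⊗[ZMod 2] (MN H ⊗[ZMod 2] MN H)) :
    Th H X' (f.rTensor (MN H ⊗[ZMod 2] MN H) t) = mapX (MN H) f (Th H X t) := by
  have : (Th H X').toLinearMap ∘ₗ f.rTensor (MN H ⊗[ZMod 2] MN H) =
      mapX (MN H) f ∘ₗ (Th H X).toLinearMap := by
    refine TensorProduct.ext_threefold' fun x a b => ?_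
    change Th H X' (f x ⊗ₜ[ZMod 2] (a ⊗ₜ[ZMod 2] b)) = _
    rw [Th_tmul, LinearMap.comp_apply]
    change _ = mapX (MN H) f (a ⊗ₜ[ZMod 2] (x ⊗ₜ[ZMod 2] b))
    rw [mapX_tmul]
  exact LinearMap.congr_fun this t

end FL

/-- **Flatness of `V ⊗ V`** -/
theorem flat_VV {r : ℕ} {N : ℕ → Subgroup H} (hC : Chain H r N) : Flat (τVV H) := by
  intro X X' _ _ _ _ ρ ρ' f hf hinj t ht
  rw [← FL.Th_Kr] at ht ⊢
  rw [FL.Th_rTensor] at ht
  exact FL.flatOn_MN hC X X' ρ ρ' f hinj hf _ ht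

end

end Pool.Agent.S11
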